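import Mathlib
import Pool.Agent.Lib.helper4.PowRes2

set_option autoImplicit false

namespace Pool.Agent.Results.MP_155eb7_gt.NotResolvable

open TopologicalSpace

/-- A family `B` of subsets of `X` is resolvable if it is the disjoint union of two bases. -/
def Resolvable {X : Type} [TopologicalSpace X] (B : Set (Set X)) : Prop :=
  ∃ B₀ B₁ : Set (Set X), B₀ ∪ B₁ = B ∧ Disjoint B₀ B₁ ∧
    IsTopologicalBasis B₀ ∧ IsTopologicalBasis B₁

/-- A space is base resolvable if each of its bases is resolvable. -/
def BaseResolvable (X : Type) [TopologicalSpace X] : Prop :=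
  ∀ B : Set (Set X), IsTopologicalBasis B → Resolvable B

theorem result : BaseResolvable ℝ ∧
    ∃ J : Type, Cardinal.mk J = Cardinal.aleph 1 ∧ ¬ BaseResolvable (J → ℝ) := by
  open Pool.Agent.Lib.helper4.PowRes in
  exact ⟨real_res, I × I, by simp, fun h =>
    let ⟨B₀, B₁, a, b, c, d⟩ := h B basis; not_res B₀ B₁ a b c d⟩

end Pool.Agent.Results.MP_155eb7_gt.NotResolvable
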